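import Pool.Agent.H.MP_20d613_pr.Final

/-!
# Exceptional times under exclusion versus independent dynamics

`I` is an arbitrary countable index set (the sites of the triangular lattice, the edges of the
square lattice, ...).  Whenever a measurable event `A` (in particular one with `P(A) = 0`) has
exceptional times under the exclusion dynamics with a symmetric kernel with bounded row sums,
it has exceptional times under ordinary dynamical percolation.
-/

open MeasureTheory ProbabilityTheory
open scoped ENNReal NNReal

namespace Pool.Agent.Results.MP_20d613_pr.ExclusionImpliesIndependent

open Pool.Agent.H.MP_20d613_pr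

/-- For every countable `I`, every symmetric kernel `K` with bounded row sums and every
measurable event `A`: if `A` has exceptional times under the exclusion dynamics `Y` with
kernel `K`, then `A` has exceptional times under ordinary dynamical percolation `X`. -/
theorem result {I : Type*} [Countable I] (K : SwapKernel I)
    (A : Set (I → Bool)) (hA : MeasurableSet A)
    {Ω : Type*} {mΩ : MeasurableSpace Ω} (μ : Measure Ω) [IsProbabilityMeasure μ]
    (Y : ℝ≥0 → Ω → I → Bool) (hY : IsExclusion K μ Y)
    {Ω' : Type*} {mΩ' : MeasurableSpace Ω'} (μ' : Measure Ω') [IsProbabilityMeasure μ']
    (X : ℝ≥0 → Ω' → I → Bool) (hX : IsDynPerc μ' X)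
    (h : HasExceptionalTimes μ Y A) : HasExceptionalTimes μ' X A :=
  exceptional_of_exclusion K A hA μ Y hY μ' X hX h

end Pool.Agent.Results.MP_20d613_pr.ExclusionImpliesIndependent
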